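import Mathlib

/-!
# The section-ratio criterion for LCM `p`-groups

Let `G` be a `p`-group which is not an LCM-group while all its proper subgroups are, and put
`X = {x : x ^ (p ^ k) = 1}`, with `x, y ∈ X` and `x y ∉ X`.  Then `G = ⟨x, y⟩`; let `M₁ ∋ x` and
`M₂ ∋ y` be of index `p`.  The sets `W i = X ∩ M i` are normal subgroups of `G` with `W₁ W₂ = G`, so
`|G : W₂| = |W₁ : W₁ ∩ W₂| = |W₁ : W₁ ∩ M₂| ≤ p` and `W₂ = M₂`, likewise `W₁ = M₁`.  If
`w ∈ M₁ \ M₂` were in `LCM(G)`, then `G = ⋃ w ^ n M₂ ⊆ X`, which is false.  So `LCM(G)` misses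
`(M₁ \ M₂) ∪ (M₂ \ M₁)`, which has `2 (p - 1) |G| / p ^ 2` elements.
-/

namespace Pool.Agent.Results.MP_391eb1_al.SectionRatio

universe u

/-- The set `LCM(G)`. -/
def LCM (G : Type u) [Group G] : Set G :=
  {x | ∀ n : ℕ, 0 < n → ∀ y : G, orderOf (x ^ n * y) ∣ Nat.lcm (orderOf (x ^ n)) (orderOf y)}

/-- `G` is an LCM-group. -/
def IsLCMGroup (G : Type u) [Group G] : Prop := LCM G = Set.univ

/-- The ratio `lcm(G) = |LCM(G)| / |G|`. -/
noncomputable def lcmRatio (G : Type u) [Group G] : ℝ := (Nat.card (LCM G) : ℝ) / Nat.card G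

/-- The number `lcm*(G)`: the infimum (for finite `G` the minimum) of `lcm(H / K)` over all sections
`H / K` of `G`. -/
noncomputable def lcmStar (G : Type u) [Group G] : ℝ :=
  sInf {r | ∃ (H : Subgroup G) (K : Subgroup H) (_ : K.Normal), r = lcmRatio (H ⧸ K)}

variable {G : Type u} [Group G]

theorem map_LCM {H : Type u} [Group H] (e : G ≃* H) (x : G) : x ∈ LCM G → e x ∈ LCM H := by
  intro hx n hn y
  have := hx n hn (e.symm y)
  have h1 : orderOf (e x ^ n * y) = orderOf (x ^ n * e.symm y) := by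
    rw [← orderOf_injective e.toMonoidHom e.injective (x ^ n * e.symm y)]
    simp
  have h2 : orderOf (e x ^ n) = orderOf (x ^ n) := by
    rw [← orderOf_injective e.toMonoidHom e.injective (x ^ n)]
    simp
  have h3 : orderOf y = orderOf (e.symm y) := by
    rw [← orderOf_injective e.toMonoidHom e.injective (e.symm y)]
    simp
  rw [h1, h2, h3]
  exact this

theorem card_LCM_congr {H : Type u} [Group H] (e : G ≃* H) :
    Nat.card (LCM G) = Nat.card (LCM H) := by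
  refine Nat.card_congr ⟨fun x => ⟨e x.1, map_LCM e x.1 x.2⟩,
    fun y => ⟨e.symm y.1, map_LCM e.symm y.1 y.2⟩, ?_, ?_⟩
  · intro x; ext; simp
  · intro y; ext; simp

theorem lcmRatio_congr {H : Type u} [Group H] (e : G ≃* H) : lcmRatio G = lcmRatio H := by
  rw [lcmRatio, lcmRatio, card_LCM_congr e, Nat.card_congr e.toEquiv]

theorem isLCMGroup_congr {H : Type u} [Group H] (e : G ≃* H) (h : IsLCMGroup G) :
    IsLCMGroup H := by
  rw [IsLCMGroup, Set.eq_univ_iff_forall] at h ⊢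
  intro y
  have := map_LCM e _ (h (e.symm y))
  simpa using this

theorem pow_of_mem_LCM {q : ℕ} {x y : G} (h : x ∈ LCM G) (hx : x ^ q = 1) (hy : y ^ q = 1)
    (n : ℕ) (hn : 0 < n) : (x ^ n * y) ^ q = 1 := by
  have h1 := h n hn y
  apply orderOf_dvd_iff_pow_eq_one.1
  refine h1.trans (Nat.lcm_dvd ?_ (orderOf_dvd_iff_pow_eq_one.2 hy))
  apply orderOf_dvd_iff_pow_eq_one.2
  rw [← pow_mul, mul_comm, pow_mul, hx, one_pow]

theorem exists_of_not_LCM {p : ℕ} [Fact p.Prime] (hG : IsPGroup p G) (h : ¬ IsLCMGroup G) :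
    ∃ k : ℕ, ∃ x y : G, x ^ p ^ k = 1 ∧ y ^ p ^ k = 1 ∧ (x * y) ^ p ^ k ≠ 1 := by
  by_contra hc
  push Not at hc
  apply h
  rw [IsLCMGroup, Set.eq_univ_iff_forall]
  intro x n _ y
  obtain ⟨a, ha⟩ := IsPGroup.iff_orderOf.1 hG (x ^ n)
  obtain ⟨b, hb⟩ := IsPGroup.iff_orderOf.1 hG y
  rcases le_total a b with hab | hab
  · have h1 : (x ^ n * y) ^ p ^ b = 1 := by
      refine hc b _ _ ?_ ?_
      · apply orderOf_dvd_iff_pow_eq_one.1
        rw [ha]
        exact pow_dvd_pow _ hab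
      · apply orderOf_dvd_iff_pow_eq_one.1
        rw [hb]
    have h2 := orderOf_dvd_of_pow_eq_one h1
    rw [← hb] at h2
    exact h2.trans (Nat.dvd_lcm_right _ _)
  · have h1 : (x ^ n * y) ^ p ^ a = 1 := by
      refine hc a _ _ ?_ ?_
      · apply orderOf_dvd_iff_pow_eq_one.1
        rw [ha]
      · apply orderOf_dvd_iff_pow_eq_one.1
        rw [hb]
        exact pow_dvd_pow _ hab
    have h2 := orderOf_dvd_of_pow_eq_one h1
    rw [← ha] at h2
    exact h2.trans (Nat.dvd_lcm_left _ _)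

/-- The elements of `M` killed by `q`. -/
def W (q : ℕ) (M : Subgroup G) (hM : IsLCMGroup M) : Subgroup G where
  carrier := {g | g ∈ M ∧ g ^ q = 1}
  one_mem' := ⟨M.one_mem, one_pow _⟩
  inv_mem' := fun {g} hg => ⟨M.inv_mem hg.1, by rw [inv_pow, hg.2, inv_one]⟩
  mul_mem' := by
    rintro a b ⟨ha, ha'⟩ ⟨hb, hb'⟩
    refine ⟨M.mul_mem ha hb, ?_⟩
    have h1 : (⟨a, ha⟩ : M) ∈ LCM M := by
      rw [IsLCMGroup, Set.eq_univ_iff_forall] at hM
      exact hM _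
    have h2 := pow_of_mem_LCM (q := q) (x := (⟨a, ha⟩ : M)) (y := ⟨b, hb⟩) h1
      (by ext; simpa using ha') (by ext; simpa using hb') 1 one_pos
    have h3 := congrArg Subtype.val h2
    simpa using h3

theorem mem_W {q : ℕ} {M : Subgroup G} {hM : IsLCMGroup M} {g : G} :
    g ∈ W q M hM ↔ g ∈ M ∧ g ^ q = 1 := Iff.rfl

theorem W_normal {q : ℕ} {M : Subgroup G} [hn : M.Normal] (hM : IsLCMGroup M) :
    (W q M hM).Normal := by
  constructor
  rintro n ⟨h1, h2⟩ g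
  refine ⟨hn.conj_mem n h1 g, ?_⟩
  rw [conj_pow, h2]
  simp

theorem eq_W [Finite G] {p q : ℕ} [Fact p.Prime] {M₁ M₂ : Subgroup G} [M₁.Normal] [M₂.Normal]
    (h2 : M₂.index = p) (hM₁ : IsLCMGroup M₁) (hM₂ : IsLCMGroup M₂)
    (hs : W q M₁ hM₁ ⊔ W q M₂ hM₂ = ⊤) : W q M₂ hM₂ = M₂ := by
  have n2 := W_normal (q := q) hM₂
  have e1 : (W q M₂ hM₂).index = (W q M₂ hM₂).relIndex (W q M₁ hM₁) := by
    rw [← Subgroup.relIndex_sup_right, hs, Subgroup.relIndex_top_right]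
  have e2 : (W q M₂ hM₂).relIndex (W q M₁ hM₁) = M₂.relIndex (W q M₁ hM₁) := by
    rw [← Subgroup.inf_relIndex_right, ← Subgroup.inf_relIndex_right M₂]
    congr 1
    ext g
    simp only [Subgroup.mem_inf, mem_W]
    tauto
  have e3 : (W q M₂ hM₂).index ∣ p := by
    rw [e1, e2, ← h2]
    exact Subgroup.relIndex_dvd_index_of_normal _ _
  have le : W q M₂ hM₂ ≤ M₂ := fun g hg => hg.1
  have e4 : (W q M₂ hM₂).index ≤ M₂.index := by
    rw [h2]; exact Nat.le_of_dvd (Fact.out : p.Prime).pos e3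
  have e5 : (W q M₂ hM₂).relIndex M₂ * M₂.index = (W q M₂ hM₂).index :=
    Subgroup.relIndex_mul_index le
  have pos : 0 < M₂.index := by rw [h2]; exact (Fact.out : p.Prime).pos
  have e6 : (W q M₂ hM₂).relIndex M₂ = 1 := by
    have : 0 < (W q M₂ hM₂).relIndex M₂ := Nat.pos_of_ne_zero (by
      intro h0
      rw [h0, zero_mul] at e5
      exact Subgroup.index_ne_zero_of_finite e5.symm)
    nlinarith
  exact le_antisymm le (Subgroup.relIndex_eq_one.1 e6)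

theorem notMem_LCM [Finite G] {p q : ℕ} [Fact p.Prime] {M : Subgroup G} [M.Normal]
    (h : M.index = p) (hM : ∀ g ∈ M, g ^ q = 1) (hG : ∃ g : G, g ^ q ≠ 1) {w : G} (hw : w ^ q = 1)
    (hwM : w ∉ M) : w ∉ LCM G := by
  intro hL
  obtain ⟨g, hg⟩ := hG
  apply hg
  have hc : Nat.card (G ⧸ M) = p := by rw [← Subgroup.index_eq_card, h]
  have hw1 : (w : G ⧸ M) ≠ 1 := by
    rwa [Ne, QuotientGroup.eq_one_iff]
  obtain ⟨n, hn⟩ := mem_powers_of_prime_card hc (g' := (g : G ⧸ M)) hw1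
  have hwp : (w : G ⧸ M) ^ p = 1 := by rw [← hc]; exact pow_card_eq_one'
  have h1 : (((w ^ (n + p))⁻¹ * g : G) : G ⧸ M) = 1 := by
    have hn' : (w : G ⧸ M) ^ n = g := hn
    rw [QuotientGroup.mk_mul, QuotientGroup.mk_inv, QuotientGroup.mk_pow, pow_add, hwp, mul_one,
      hn', inv_mul_cancel]
  rw [QuotientGroup.eq_one_iff] at h1
  have h2 := pow_of_mem_LCM hL hw (hM _ h1) (n + p) (by
    have := (Fact.out : p.Prime).pos
    omega)
  simpa using h2

theorem exists_index_p [Finite G] {p : ℕ} [Fact p.Prime] (hG : IsPGroup p G) (H : Subgroup G)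
    (hH : H ≠ ⊤) : ∃ M : Subgroup G, H ≤ M ∧ M.Normal ∧ M.index = p ∧ M ≠ ⊤ := by
  obtain ⟨a, ha⟩ := IsPGroup.iff_card.1 hG
  obtain ⟨b, hb⟩ := IsPGroup.iff_card.1 (hG.to_subgroup H)
  have hp := (Fact.out : p.Prime)
  have hba : b < a := by
    by_contra hc
    apply hH
    apply Subgroup.eq_top_of_le_card
    rw [ha, hb]
    exact Nat.pow_le_pow_right hp.pos (by omega)
  obtain ⟨M, hM, hHM⟩ := Sylow.exists_subgroup_card_pow_prime_le p (m := a - 1)
    (by rw [ha]; exact pow_dvd_pow _ (by omega)) H hb (by omega)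
  have hi : M.index = p := by
    have h1 := M.card_mul_index
    rw [hM, ha] at h1
    have h2 : p ^ a = p ^ (a - 1) * p := by
      rw [← pow_succ]; congr 1; omega
    rw [h2] at h1
    exact Nat.eq_of_mul_eq_mul_left (pow_pos hp.pos _) h1
  refine ⟨M, hHM, ?_, hi, ?_⟩
  · apply Subgroup.normal_of_index_eq_minFac_card
    rw [hi, ha]
    rw [hp.pow_minFac (by omega)]
  · rintro rfl
    rw [Subgroup.index_top] at hi
    exact hp.one_lt.ne hi

theorem card_diff [Finite G] {p : ℕ} [Fact p.Prime] {M₁ M₂ : Subgroup G} [M₂.Normal]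
    (h1 : M₁.index = p) (h2 : M₂.index = p) (h : ¬ M₁ ≤ M₂) :
    p ^ 2 * Set.ncard ((M₁ : Set G) \ M₂) + Nat.card G = p * Nat.card G := by
  have hp := (Fact.out : p.Prime)
  have e1 : M₂.relIndex M₁ = p := by
    have := Subgroup.relIndex_dvd_index_of_normal M₂ M₁
    rw [h2, Nat.dvd_prime hp, Subgroup.relIndex_eq_one] at this
    tauto
  have e2 : Nat.card (M₂ ⊓ M₁ : Subgroup G) * p = Nat.card M₁ := by
    rw [← e1, ← Subgroup.inf_relIndex_right, ← Subgroup.relIndex_bot_left (M₂ ⊓ M₁),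
      ← Subgroup.relIndex_bot_left M₁]
    exact Subgroup.relIndex_mul_relIndex ⊥ (M₂ ⊓ M₁) M₁ bot_le inf_le_right
  have e3 : Nat.card M₁ * p = Nat.card G := by
    rw [← h1]; exact M₁.card_mul_index
  have e4 : Set.ncard ((M₁ : Set G) \ M₂) + Nat.card (M₂ ⊓ M₁ : Subgroup G) = Nat.card M₁ := by
    have := Set.ncard_inter_add_ncard_sdiff_eq_ncard (M₁ : Set G) (M₂ : Set G)
    have e5 : Nat.card (M₂ ⊓ M₁ : Subgroup G) = Set.ncard ((M₁ : Set G) ∩ M₂) := by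
      rw [← Nat.card_coe_set_eq, Set.inter_comm]
      rfl
    have e6 : Nat.card M₁ = Set.ncard (M₁ : Set G) := by
      rw [← Nat.card_coe_set_eq]
      rfl
    rw [e5, e6]
    omega
  have e7 : p ^ 2 * Set.ncard ((M₁ : Set G) \ M₂) + p ^ 2 * Nat.card (M₂ ⊓ M₁ : Subgroup G) =
      p ^ 2 * Nat.card M₁ := by rw [← mul_add, e4]
  have e8 : p ^ 2 * Nat.card (M₂ ⊓ M₁ : Subgroup G) = Nat.card G := by
    rw [← e3, ← e2]; ring
  have e9 : p ^ 2 * Nat.card M₁ = p * Nat.card G := by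
    rw [← e3]; ring
  rw [← e9, ← e7, e8]

theorem minimal [Finite G] {p : ℕ} [Fact p.Prime] (hG : IsPGroup p G) (hn : ¬ IsLCMGroup G)
    (hs : ∀ H : Subgroup G, H ≠ ⊤ → IsLCMGroup H) :
    p ^ 2 * Nat.card (LCM G) + 2 * (p * Nat.card G) ≤ p ^ 2 * Nat.card G + 2 * Nat.card G := by
  obtain ⟨k, x, y, hx, hy, hxy⟩ := exists_of_not_LCM hG hn
  have gen : ∀ H : Subgroup G, x ∈ H → y ∈ H → H = ⊤ := by
    intro H h1 h2
    by_contra h3
    exact hxy (mem_W.1 ((W (p ^ k) H (hs H h3)).mul_mem (mem_W.2 ⟨h1, hx⟩) (mem_W.2 ⟨h2, hy⟩))).2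
  have hcomm : x * y ≠ y * x := by
    intro h
    apply hxy
    rw [(show Commute x y from h).mul_pow, hx, hy, one_mul]
  have hzx : Subgroup.zpowers x ≠ ⊤ := by
    intro h
    apply hcomm
    have : y ∈ Subgroup.zpowers x := by rw [h]; trivial
    obtain ⟨n, rfl⟩ := Subgroup.mem_zpowers_iff.1 this
    exact ((Commute.refl x).zpow_right n)
  have hzy : Subgroup.zpowers y ≠ ⊤ := by
    intro h
    apply hcomm
    have : x ∈ Subgroup.zpowers y := by rw [h]; trivial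
    obtain ⟨n, rfl⟩ := Subgroup.mem_zpowers_iff.1 this
    exact ((Commute.refl y).zpow_left n)
  obtain ⟨M₁, hM₁x, hM₁n, hM₁i, hM₁t⟩ := exists_index_p hG _ hzx
  obtain ⟨M₂, hM₂y, hM₂n, hM₂i, hM₂t⟩ := exists_index_p hG _ hzy
  have hx1 : x ∈ M₁ := hM₁x (Subgroup.mem_zpowers x)
  have hy2 : y ∈ M₂ := hM₂y (Subgroup.mem_zpowers y)
  have h1 := hs M₁ hM₁t
  have h2 := hs M₂ hM₂t
  have hsup : W (p ^ k) M₁ h1 ⊔ W (p ^ k) M₂ h2 = ⊤ :=
    gen _ (Subgroup.mem_sup_left (mem_W.2 ⟨hx1, hx⟩)) (Subgroup.mem_sup_right (mem_W.2 ⟨hy2, hy⟩))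
  have w2 := eq_W hM₂i h1 h2 hsup
  have w1 := eq_W hM₁i h2 h1 (by rw [sup_comm]; exact hsup)
  have k1 : ∀ g ∈ M₁, g ^ p ^ k = 1 := by
    intro g hg
    rw [← w1] at hg
    exact hg.2
  have k2 : ∀ g ∈ M₂, g ^ p ^ k = 1 := by
    intro g hg
    rw [← w2] at hg
    exact hg.2
  have n12 : ¬ M₁ ≤ M₂ := fun h => hM₂t (gen M₂ (h hx1) hy2)
  have n21 : ¬ M₂ ≤ M₁ := fun h => hM₁t (gen M₁ hx1 (h hy2))
  have c1 := card_diff hM₁i hM₂i n12
  have c2 := card_diff hM₂i hM₁i n21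
  have hsub : LCM G ∪ (((M₁ : Set G) \ M₂) ∪ ((M₂ : Set G) \ M₁)) ⊆ Set.univ :=
    Set.subset_univ _
  have hd1 : Disjoint ((M₁ : Set G) \ M₂) ((M₂ : Set G) \ M₁) := by
    rw [Set.disjoint_left]
    rintro g ⟨_, hg⟩ ⟨hg', _⟩
    exact hg hg'
  have hd2 : Disjoint (LCM G) (((M₁ : Set G) \ M₂) ∪ ((M₂ : Set G) \ M₁)) := by
    rw [Set.disjoint_left]
    rintro g hg (⟨hg1, hg2⟩ | ⟨hg1, hg2⟩)
    · exact notMem_LCM hM₂i k2 ⟨_, hxy⟩ (k1 g hg1) hg2 hg
    · exact notMem_LCM hM₁i k1 ⟨_, hxy⟩ (k2 g hg1) hg2 hg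
  have hcard := Set.ncard_le_ncard hsub
  rw [Set.ncard_union_eq hd2, Set.ncard_union_eq hd1, Set.ncard_univ] at hcard
  have e : Nat.card (LCM G) = Set.ncard (LCM G) := Nat.card_coe_set_eq _
  rw [e]
  nlinarith [hcard, c1, c2, Nat.zero_le (p ^ 2)]

/-- The constant `c = 1 - 2 (p - 1) / p ^ 2`. -/
noncomputable def c (p : ℕ) : ℝ := 1 - 2 * ((p : ℝ) - 1) / (p : ℝ) ^ 2

theorem ratio_le_c [Finite G] {p : ℕ} [Fact p.Prime] (hG : IsPGroup p G) (hn : ¬ IsLCMGroup G)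
    (hs : ∀ H : Subgroup G, H ≠ ⊤ → IsLCMGroup H) : lcmRatio G ≤ c p := by
  have h1 := minimal hG hn hs
  have h2 : (p : ℝ) ^ 2 * Nat.card (LCM G) + 2 * (p * Nat.card G) ≤
      (p : ℝ) ^ 2 * Nat.card G + 2 * Nat.card G := by exact_mod_cast h1
  have hp : (0 : ℝ) < p := by exact_mod_cast (Fact.out : p.Prime).pos
  have hG' : (0 : ℝ) < Nat.card G := by exact_mod_cast Nat.card_pos
  rw [lcmRatio, div_le_iff₀ hG', c]
  have hp2 : (0 : ℝ) < (p : ℝ) ^ 2 := by positivity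
  have : (1 - 2 * ((p : ℝ) - 1) / (p : ℝ) ^ 2) * Nat.card G =
      (((p : ℝ) ^ 2 - 2 * (p - 1)) * Nat.card G) / (p : ℝ) ^ 2 := by
    field_simp
  rw [this, le_div_iff₀ hp2]
  nlinarith

theorem exists_minimal [Finite G] (hn : ¬ IsLCMGroup G) : ∃ H : Subgroup G, ¬ IsLCMGroup H ∧
    ∀ K : Subgroup H, K ≠ ⊤ → IsLCMGroup K := by
  have hfin : (Set.univ : Set (Subgroup G)).Finite := Set.finite_univ
  have hwf : WellFounded ((· < ·) : Subgroup G → Subgroup G → Prop) := wellFounded_lt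
  have hne : ({H : Subgroup G | ¬ IsLCMGroup H}).Nonempty := by
    refine ⟨⊤, fun h => hn ?_⟩
    exact isLCMGroup_congr Subgroup.topEquiv h
  refine ⟨hwf.min _ hne, hwf.min_mem _ hne, ?_⟩
  intro K hK
  by_contra hc
  have hlt : K.map (hwf.min _ hne).subtype < hwf.min _ hne := by
    refine lt_of_le_of_ne (Subgroup.map_subtype_le K) ?_
    intro h
    apply hK
    rw [eq_top_iff]
    intro z _
    have hz : (z : G) ∈ K.map (hwf.min _ hne).subtype := by rw [h]; exact z.2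
    obtain ⟨z', hz', he⟩ := hz
    have : z' = z := Subtype.ext he
    exact this ▸ hz'
  refine hwf.not_lt_min _ (x := K.map (hwf.min _ hne).subtype) ?_ hlt
  intro h
  exact hc (isLCMGroup_congr (K.equivMapOfInjective _ (Subgroup.subtype_injective _)).symm h)

/-- For every prime `p` the constant `c = 1 - 2 (p - 1) / p ^ 2` lies in `(0, 1)`, and a finite
`p`-group `G` with `lcm*(G) > c` is an LCM-group. -/
theorem result (p : ℕ) [Fact p.Prime] : 0 < c p ∧ c p < 1 ∧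
    (∀ (G : Type u) [Group G] [Finite G], IsPGroup p G → c p < lcmStar G → IsLCMGroup G) ∧
    ∀ (G : Type u) [Group G] [Finite G], IsPGroup p G →
      (∀ H : Subgroup G, c p < lcmRatio H) → IsLCMGroup G := by
  have hp1 : (1 : ℝ) < p := by exact_mod_cast (Fact.out : p.Prime).one_lt
  have hp2 : (0 : ℝ) < (p : ℝ) ^ 2 := by positivity
  have key : ∀ (G : Type u) [Group G] [Finite G], IsPGroup p G →
      (∀ H : Subgroup G, c p < lcmRatio H) → IsLCMGroup G := by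
    intro G _ _ hG h
    by_contra hn
    obtain ⟨H, h1, h2⟩ := exists_minimal hn
    exact absurd (ratio_le_c (hG.to_subgroup H) h1 h2) (not_le.2 (h H))
  refine ⟨?_, ?_, ?_, key⟩
  · rw [c, sub_pos, div_lt_one hp2]
    nlinarith [sq_nonneg ((p : ℝ) - 1)]
  · rw [c, sub_lt_self_iff]
    have : (0 : ℝ) < (p : ℝ) - 1 := by linarith
    positivity
  · intro G _ _ hG h
    refine key G hG fun H => ?_
    refine lt_of_lt_of_le h (csInf_le ⟨0, ?_⟩ ?_)
    · rintro r ⟨_, _, _, rfl⟩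
      rw [lcmRatio]
      positivity
    · exact ⟨H, ⊥, inferInstance, lcmRatio_congr (QuotientGroup.quotientBot (G := H)).symm⟩

end Pool.Agent.Results.MP_391eb1_al.SectionRatio
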